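import Pool.Agent.H.MP_c1f45e_al.B

set_option autoImplicit false

namespace Pool.Agent.Results.MP_c1f45e_al.No

open MvPolynomial

/-- The `t`-connected ideal of a graph. -/
noncomputable def conn (K : Type) [Field K] {V : Type} (G : SimpleGraph V) (t : ℕ) :
    Ideal (MvPolynomial V K) :=
  Ideal.span {p | ∃ S : Finset V, S.card = t ∧ (G.induce (S : Set V)).Connected ∧
    p = ∏ v ∈ S, X v}

/-- For any two disjoint edges, an endpoint of one is adjacent to an endpoint of the other. -/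
def GapFree {V : Type} (G : SimpleGraph V) : Prop :=
  ∀ a b c d, G.Adj a b → G.Adj c d → a ≠ c → a ≠ d → b ≠ c → b ≠ d →
    G.Adj a c ∨ G.Adj a d ∨ G.Adj b c ∨ G.Adj b d

/-- The monic monomial with exponent vector `a`. -/
noncomputable def mon (K : Type) [Field K] {V : Type} (a : V →₀ ℕ) : MvPolynomial V K :=
  monomial a 1

/-- The minimal monomials of `I` can be listed so that each colon ideal of the earlier ones by
the next one is generated by variables. -/
def LinearQuotients {K : Type} [Field K] {V : Type} (I : Ideal (MvPolynomial V K)) : Prop :=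
  ∃ (r : ℕ) (a : Fin r → V →₀ ℕ), Function.Injective a ∧
    Set.range a = {b | Minimal (fun c => mon K c ∈ I) b} ∧
    ∀ i : Fin r, 0 < i.1 → ∃ W : Set V,
      (Ideal.span {p | ∃ j < i, p = mon K (a j)}).colon {mon K (a i)} = Ideal.span (X '' W)

theorem result (K : Type) [Field K] :
    ∃ G : SimpleGraph (Fin 12), GapFree G ∧ ¬ LinearQuotients (conn K G 3) := by
  classical
  refine ⟨Ico.GG, Ico.gap, ?_⟩
  rintro ⟨r, a, -, h1, h2⟩
  have e : ∀ c, mon K c ∈ conn K Ico.GG 3 ↔ ∃ S : Finset (Fin 12), (S.card = 3 ∧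
      (Ico.GG.induce (S : Set (Fin 12))).Connected) ∧ Spd.ind S ≤ c := fun c => by
    have : conn K Ico.GG 3 = Ideal.span ((fun s => monomial s (1 : K)) '' (Spd.ind ''
        {S | S.card = 3 ∧ (Ico.GG.induce (S : Set (Fin 12))).Connected})) := by
      rw [conn, Set.image_image]
      simp only [Spd.mon_ind, Set.image, Set.mem_ofPred_eq, and_assoc, eq_comm]
    rw [this, mem_ideal_span_monomial_image, mon, support_monomial, if_neg one_ne_zero]
    simp
  have e2 : ∀ b, (∃ i, a i = b) ↔ ∃ S : Finset (Fin 12), (S.card = 3 ∧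
      (Ico.GG.induce (S : Set (Fin 12))).Connected) ∧ Spd.ind S = b := fun b => by
    rw [← Set.mem_range, h1, Set.mem_ofPred_eq]
    refine ⟨fun h => ?_, ?_⟩
    · obtain ⟨S, hS, h3⟩ := (e b).1 h.1
      exact ⟨S, hS, h3.antisymm (h.2 ((e _).2 ⟨S, hS, le_rfl⟩) h3)⟩
    · rintro ⟨S, hS, rfl⟩
      refine ⟨(e _).2 ⟨S, hS, le_rfl⟩, fun c hc h3 => ?_⟩
      obtain ⟨T, hT, h4⟩ := (e c).1 hc
      have h5 := Spd.ind_le.1 (h4.trans h3)
      rw [Spd.supp_ind] at h5
      rwa [← Finset.eq_of_subset_of_card_le h5 (hS.1.trans hT.1.symm).le]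
  choose S hS hS' using fun i => (e2 _).1 ⟨i, rfl⟩
  let T : ℕ → Finset (Fin 12) := fun n => if h : n < r then S ⟨n, h⟩ else ∅
  have hT : ∀ i : Fin r, T i = S i := fun i => dif_pos i.2
  have lq : ∀ n ≤ r, Ico.LQ (Ico.pre T n) := by
    intro n hn
    induction n with
    | zero => trivial
    | succ n ih =>
      refine ⟨ih (by omega), (hT ⟨n, hn⟩).symm ▸ (hS _).1, ?_⟩
      rcases n.eq_zero_or_pos with rfl | h0
      · exact fun _ _ _ _ h _ h' => by simp [Ico.U, Ico.pre] at h'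
      obtain ⟨W, hW⟩ := h2 ⟨n, hn⟩ h0
      refine fun x hx y hy => Ico.lq_of_colon (k := K) (V := W) (fun c => ?_) x hx y hy
      have : Ideal.span {p | ∃ j < (⟨n, hn⟩ : Fin r), p = mon K (a j)} =
          Spd.IL K (Ico.pre T n) := by
        refine congrArg Ideal.span (Set.ext fun p => ⟨?_, ?_⟩)
        · rintro ⟨j, hj, rfl⟩
          exact ⟨_, ⟨_, Ico.mem_pre.2 ⟨j, hj, hT j⟩, hS' j⟩, rfl⟩
        · rintro ⟨_, ⟨_, h, rfl⟩, rfl⟩
          obtain ⟨j, hj, rfl⟩ := Ico.mem_pre.1 h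
          exact ⟨⟨j, hj.trans hn⟩, hj, by rw [← hS', ← hT]; rfl⟩
      rw [← hW, this, Submodule.mem_colon_singleton, ← hS', mon, Spd.mon_ind, ← hT, smul_eq_mul]
  refine Ico.not_lq _ (lq r le_rfl) fun A => Ico.mem_pre.trans ⟨?_, fun h => ?_⟩
  · rintro ⟨j, hj, rfl⟩
    exact (hT ⟨j, hj⟩).symm ▸ hS _
  · obtain ⟨i, hi⟩ := (e2 _).2 ⟨A, h, rfl⟩
    refine ⟨i, i.2, (hT i).trans ?_⟩
    rw [← Spd.supp_ind (S i), hS', hi, Spd.supp_ind]

end Pool.Agent.Results.MP_c1f45e_al.No
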